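import Mathlib
import Pool.Agent.Q327.PiAdicCore

/-!
The average `π`-adic complexity of the finite sequences of length `n` over `{0, ..., N - 1}` is
`n / 2 + O(1)`, for `ℤ[π]` with `π² = - N` and with `π^d = N`.
-/

set_option autoImplicit false

namespace Pool.Agent.Results.MP_cc6759_lc.HalfLength

open Finset Pool.Agent.Q327.PiAdic

/-- Case (i): `φ(u + v π) = log_N (u² + N v²)` (with the value `0` at `0`). -/
noncomputable def phi1 {R : Type*} [CommRing R] (N : ℕ) (B : Module.Basis (Fin 2) ℤ R) (x : R) :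
    ℝ :=
  Real.logb N ((B.repr x 0 : ℝ) ^ 2 + N * (B.repr x 1 : ℝ) ^ 2)

/-- Case (ii): `φ(∑ u_i π^i) = max_i (d log_N |u_i| + i)`, the maximum over `i` with `u_i ≠ 0`
(with the value `0` at `0`). -/
noncomputable def phi2 {R : Type*} [CommRing R] (N : ℕ) {d : ℕ} (B : Module.Basis (Fin d) ℤ R)
    (x : R) : ℝ :=
  ⨆ i : {i : Fin d // B.repr x i ≠ 0},
    ((d : ℝ) * Real.logb N |(B.repr x i.1 : ℝ)| + ((i.1 : ℕ) : ℝ))

section

variable {R : Type*} [CommRing R] [IsDomain R]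

lemma exists_coord {d : ℕ} (B : Module.Basis (Fin d) ℤ R) (x : R) (hx : x ≠ 0) :
    ∃ i, sz B x = (B.repr x i).natAbs ∧ B.repr x i ≠ 0 := by
  have h0 := sz_pos B hx
  rcases Nat.eq_zero_or_pos d with hd | hd
  · subst hd
    simp [sz] at h0
  · obtain ⟨i, _, hi⟩ := Finset.exists_mem_eq_sup (Finset.univ : Finset (Fin d))
      ⟨⟨0, hd⟩, mem_univ _⟩ (fun i => (B.repr x i).natAbs)
    have h1 : sz B x = (B.repr x i).natAbs := hi
    refine ⟨i, h1, fun h2 => ?_⟩
    rw [h2] at h1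
    simp at h1
    omega

lemma cast_natAbs (m : ℤ) : ((m.natAbs : ℕ) : ℝ) = |(m : ℝ)| := by
  rw [Nat.cast_natAbs]; push_cast; rfl

lemma sizeFn2 {N d : ℕ} (hN : 2 ≤ N) (B : Module.Basis (Fin d) ℤ R) :
    SizeFn B N (phi2 N B) d := by
  have hN1 : (1 : ℝ) < N := by exact_mod_cast (by omega : 1 < N)
  refine ⟨Nat.cast_nonneg d, ?_, ?_, ?_⟩
  · unfold phi2
    have : IsEmpty {i : Fin d // B.repr (0 : R) i ≠ 0} := ⟨fun i => i.2 (by simp)⟩
    rw [Real.iSup_of_isEmpty]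
  · intro x hx
    obtain ⟨i, h1, h2⟩ := exists_coord B x hx
    rw [h1, cast_natAbs]
    have h3 := le_ciSup (f := fun i : {i : Fin d // B.repr x i ≠ 0} =>
      ((d : ℝ) * Real.logb N |(B.repr x i.1 : ℝ)| + ((i.1 : ℕ) : ℝ)))
      (Set.finite_range _).bddAbove ⟨i, h2⟩
    simp only at h3
    have h4 : (0 : ℝ) ≤ ((i : ℕ) : ℝ) := Nat.cast_nonneg _
    unfold phi2
    linarith
  · intro x hx
    obtain ⟨i, h1, h2⟩ := exists_coord B x hx
    have : Nonempty {i : Fin d // B.repr x i ≠ 0} := ⟨⟨i, h2⟩⟩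
    unfold phi2
    apply ciSup_le
    rintro ⟨j, hj⟩
    simp only
    have h3 : (B.repr x j).natAbs ≤ sz B x := natAbs_le_sz B x j
    have h4 : Real.logb N |(B.repr x j : ℝ)| ≤ Real.logb N (sz B x) := by
      rw [← cast_natAbs]
      apply Real.logb_le_logb_of_le hN1
      · exact_mod_cast Int.natAbs_pos.mpr hj
      · exact_mod_cast h3
    have h5 : ((j : ℕ) : ℝ) ≤ d := by exact_mod_cast j.2.le
    have h6 := mul_le_mul_of_nonneg_left h4 (Nat.cast_nonneg d)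
    linarith

lemma sizeFn1 {N : ℕ} (hN : 2 ≤ N) (B : Module.Basis (Fin 2) ℤ R) :
    SizeFn B N (phi1 N B) 2 := by
  have hN1 : (1 : ℝ) < N := by exact_mod_cast (by omega : 1 < N)
  have hN2 : (2 : ℝ) ≤ N := by exact_mod_cast hN
  have hsq : ∀ m : ℤ, ((m : ℝ)) ^ 2 = ((m.natAbs : ℕ) : ℝ) ^ 2 := by
    intro m
    rw [cast_natAbs, sq_abs]
  refine ⟨by norm_num, ?_, ?_, ?_⟩
  · unfold phi1
    simp
  · intro x hx
    have h0 := sz_pos B hx
    have h0' : (0 : ℝ) < sz B x := by exact_mod_cast h0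
    have h1 : (sz B x : ℝ) ^ 2 ≤ (B.repr x 0 : ℝ) ^ 2 + N * (B.repr x 1 : ℝ) ^ 2 := by
      obtain ⟨i, h1, _⟩ := exists_coord B x hx
      rw [h1, ← hsq]
      have h2 : (0 : ℝ) ≤ (B.repr x 0 : ℝ) ^ 2 := by positivity
      have h3 : (0 : ℝ) ≤ (B.repr x 1 : ℝ) ^ 2 := by positivity
      fin_cases i
      · simp only [Fin.zero_eta, Fin.isValue]
        nlinarith
      · simp only [Fin.mk_one, Fin.isValue]
        nlinarith
    have h2 := Real.logb_le_logb_of_le hN1 (by positivity) h1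
    rw [Real.logb_pow] at h2
    unfold phi1
    exact_mod_cast h2
  · intro x hx
    have h0 := sz_pos B hx
    have h0' : (0 : ℝ) < sz B x := by exact_mod_cast h0
    have h1 : (B.repr x 0 : ℝ) ^ 2 + N * (B.repr x 1 : ℝ) ^ 2 ≤ (N : ℝ) ^ 2 * (sz B x : ℝ) ^ 2 := by
      have h2 : ∀ i : Fin 2, (B.repr x i : ℝ) ^ 2 ≤ (sz B x : ℝ) ^ 2 := by
        intro i
        rw [hsq]
        have : ((B.repr x i).natAbs : ℝ) ≤ sz B x := by exact_mod_cast natAbs_le_sz B x i
        exact pow_le_pow_left₀ (Nat.cast_nonneg _) this 2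
      have h3 := h2 0
      have h4 := h2 1
      have h5 : (N : ℝ) * (B.repr x 1 : ℝ) ^ 2 ≤ N * (sz B x : ℝ) ^ 2 :=
        mul_le_mul_of_nonneg_left h4 (by linarith)
      have h6 : (1 + (N : ℝ)) * (sz B x : ℝ) ^ 2 ≤ (N : ℝ) ^ 2 * (sz B x : ℝ) ^ 2 := by
        apply mul_le_mul_of_nonneg_right _ (by positivity)
        nlinarith
      linarith
    have hpos : 0 < (B.repr x 0 : ℝ) ^ 2 + N * (B.repr x 1 : ℝ) ^ 2 := by
      obtain ⟨i, _, hi⟩ := exists_coord B x hx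
      have h2 : (0 : ℝ) ≤ (B.repr x 0 : ℝ) ^ 2 := by positivity
      have h3 : (0 : ℝ) ≤ (B.repr x 1 : ℝ) ^ 2 := by positivity
      have h4 : (0 : ℝ) < (B.repr x i : ℝ) ^ 2 := by
        have : (B.repr x i : ℝ) ≠ 0 := by exact_mod_cast hi
        positivity
      fin_cases i
      · simp only [Fin.zero_eta, Fin.isValue] at h4
        nlinarith
      · simp only [Fin.mk_one, Fin.isValue] at h4
        nlinarith
    have h2 := Real.logb_le_logb_of_le hN1 hpos h1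
    rw [Real.logb_mul (by positivity) (by positivity), Real.logb_pow, Real.logb_pow,
      Real.logb_self_eq_one hN1] at h2
    unfold phi1
    have h3 : ((2 : ℕ) : ℝ) * 1 + ((2 : ℕ) : ℝ) * Real.logb N (sz B x) =
      ((2 : ℕ) : ℝ) * Real.logb N (sz B x) + 2 := by push_cast; ring
    rw [h3] at h2
    exact h2

end

/-- **Main theorem.** Let `N ≥ 2` and let `R` be an integral domain.

(i) If `1, π` is a `ℤ`-basis of `R` and `π² = - N`, then for the size `φ(u+vπ) = log_N(u²+Nv²)`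
the `π`-adic complexity of every finite sequence is attained, and `E_n^fin = n/2 + O(1)`.

(ii) If `1, π, ..., π^(d-1)` is a `ℤ`-basis of `R`, `d ≥ 1` and `π^d = N`, then the same holds for
the size `φ(∑ u_i π^i) = max_i (d log_N |u_i| + i)`. -/
theorem result.{u} (N : ℕ) (hN : 2 ≤ N) (R : Type u) [CommRing R] [IsDomain R] (π : R) :
    (∀ B : Module.Basis (Fin 2) ℤ R, B 0 = 1 → B 1 = π → π ^ 2 = -(N : R) →
      (∀ (n : ℕ) (a : Fin n → Fin N),
        IsLeast (sizes N π (phi1 N B) a) (lam N π (phi1 N B) a)) ∧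
      ∃ C : ℝ, ∀ n : ℕ, |Efin N π (phi1 N B) n - (n : ℝ) / 2| ≤ C) ∧
    (∀ (d : ℕ) (B : Module.Basis (Fin d) ℤ R), 1 ≤ d → (∀ i : Fin d, B i = π ^ (i : ℕ)) →
      π ^ d = (N : R) →
      (∀ (n : ℕ) (a : Fin n → Fin N),
        IsLeast (sizes N π (phi2 N B) a) (lam N π (phi2 N B) a)) ∧
      ∃ C : ℝ, ∀ n : ℕ, |Efin N π (phi2 N B) n - (n : ℝ) / 2| ≤ C) := by
  constructor
  · intro B h0 h1 hπ
    have h : Setting B N π (-1) := by
      refine ⟨by norm_num, hN, ?_, Or.inr rfl, ?_⟩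
      · intro i
        fin_cases i
        · simpa using h0
        · simpa using h1
      · rw [hπ]; push_cast; ring
    exact ⟨fun n a => isLeast h (sizeFn1 hN B) a, core h (sizeFn1 hN B)⟩
  · intro d B hd hB hπ
    have h : Setting B N π 1 := by
      refine ⟨hd, hN, hB, Or.inl rfl, ?_⟩
      rw [hπ]; push_cast; ring
    exact ⟨fun n a => isLeast h (sizeFn2 hN B) a, core h (sizeFn2 hN B)⟩

end Pool.Agent.Results.MP_cc6759_lc.HalfLength
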